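import Pool.Agent.Helper44.ZB.Defs

/-! Project ZB: the three relations of a triple. -/

set_option autoImplicit false

namespace Pool.ZB.H33

open Finset Pool.RA Pool.ZB

private theorem lg (n m : ℕ) (h : 0 < n) (hm : n ≤ m) : Real.log n ≤ Real.log m :=
  Real.log_le_log (by exact_mod_cast h) (by exact_mod_cast hm)

private theorem lg0 (n : ℕ) : 0 ≤ Real.log n := Real.log_natCast_nonneg n

/-- The relation modulo `a`. -/
theorem tri_a (a b : ℕ) (ha : 0 < a) (hb : 0 < b) (h : a.Coprime b) (_hc : 3 ≤ a + b) :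
    Tri (a + b) b a (∏ q ∈ (a * b * (a + b)).primeFactors, q) (Real.log ((a + b : ℕ) : ℝ)) := by
  have h1 := lg b (a + b) hb (by omega)
  have h2 := lg a (a + b) ha (by omega)
  have h3 := lg0 b
  have h4 := lg0 (a + b)
  refine ⟨by omega, hb, ha, ?_, ?_, h.symm, ?_, ?_, ?_, ?_, h2⟩
  · exact (Nat.coprime_add_self_left).2 h
  · exact (Nat.coprime_self_add_left).2 h.symm
  · left
    refine ⟨1, ?_⟩
    push_cast
    ring
  · rw [show (a + b) * b * a = a * b * (a + b) by ring]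
  · linarith
  · linarith

/-- The relation modulo `b`. -/
theorem tri_b (a b : ℕ) (ha : 0 < a) (hb : 0 < b) (h : a.Coprime b) (_hc : 3 ≤ a + b) :
    Tri (a + b) a b (∏ q ∈ (a * b * (a + b)).primeFactors, q) (Real.log ((a + b : ℕ) : ℝ)) := by
  have h1 := lg b (a + b) hb (by omega)
  have h2 := lg a (a + b) ha (by omega)
  have h3 := lg0 a
  have h4 := lg0 (a + b)
  refine ⟨by omega, ha, hb, ?_, ?_, h, ?_, ?_, ?_, ?_, h1⟩
  · exact (Nat.coprime_self_add_left).2 h.symm
  · exact (Nat.coprime_add_self_left).2 h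
  · left
    refine ⟨1, ?_⟩
    push_cast
    ring
  · rw [show (a + b) * a * b = a * b * (a + b) by ring]
  · linarith
  · linarith

/-- The relation modulo `a + b`: `a + b ≤ (a b) ^ 2`. -/
theorem tri_c (a b : ℕ) (ha : 0 < a) (hb : 0 < b) (h : a.Coprime b) (hc : 3 ≤ a + b) :
    Tri a b (a + b) (∏ q ∈ (a * b * (a + b)).primeFactors, q) (Real.log ((a + b : ℕ) : ℝ)) := by
  have h1 := lg b (a + b) hb (by omega)
  have h2 := lg a (a + b) ha (by omega)
  refine ⟨ha, hb, by omega, h, ?_, ?_, ?_, le_refl _, ?_, ?_, le_refl _⟩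
  · exact (Nat.coprime_self_add_right).2 h
  · exact (Nat.coprime_add_self_right).2 h.symm
  · right
    refine ⟨1, ?_⟩
    push_cast
    ring
  · linarith
  · have h3 : a + b ≤ (a * b) ^ 2 := by
      obtain ⟨x, rfl⟩ : ∃ x, a = x + 1 := ⟨a - 1, by omega⟩
      obtain ⟨y, rfl⟩ : ∃ y, b = y + 1 := ⟨b - 1, by omega⟩
      have h5 : 1 ≤ x + y := by omega
      have h4 : x + y + 1 ≤ (x + 1) * (y + 1) := by nlinarith [Nat.zero_le (x * y)]
      calc x + 1 + (y + 1) ≤ (x + y + 1) ^ 2 := by nlinarith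
        _ ≤ ((x + 1) * (y + 1)) ^ 2 := Nat.pow_le_pow_left h4 2
    have h5 := lg (a + b) ((a * b) ^ 2) (by omega) h3
    have h6 : Real.log (((a * b) ^ 2 : ℕ) : ℝ) = 2 * (Real.log a + Real.log b) := by
      have ha' : (a : ℝ) ≠ 0 := by exact_mod_cast ha.ne'
      have hb' : (b : ℝ) ≠ 0 := by exact_mod_cast hb.ne'
      push_cast
      rw [Real.log_pow, Real.log_mul ha' hb']
      norm_num
    rw [h6] at h5
    exact h5

end Pool.ZB.H33
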